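import Pool.Agent.W_MP_238801_lc.Converse
import Pool.Agent.W_MP_238801_lc.Forward

/-!
# Bell's problem: Sikorski's extension theorem is equivalent to the Axiom of Choice over ZF

For each model `(M, E)` of ZF, statement (1) (each complete Boolean algebra is injective) holds in
the model if and only if the Axiom of Choice holds in the model.

Idea of the new direction, (1) implies AC, as a proof in ZF.  Let `(X i)` be a family of nonempty
sets.  Let `A` be the product over `i` of the regular open algebras of the posets of finite
partial functions from `X i` to `{0, 1}`, and let `B` be the complete subalgebra of the elements
which are invariant under the flip of `0` and `1` on each `X i`.  By (1) there is a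
homomorphism `g : A → B` that is the identity on `B`.  For `y` in `X i` let `c y` be the set of the
conditions which map `y` to `1`.  Then `w i = g (c y) + c y` (symmetric difference) does not
depend on `y`, and the flip maps `w i` to its complement.  Hence the domains of the conditions
in `w i` form a nonempty family of finite subsets of `X i`, any two of which meet.  There are only
finitely many finite subsets of `X i` of minimal size that meet all members of this family, and
their union is a nonempty finite subset `K i` of `X i`.  Finally (1), applied to the power set
of the index set inside the power set of the disjoint union of the `K i`, gives ultrafilters on
the finite sets `K i`, that is, a choice function.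
-/

universe u

/-- In each model of ZF, injectivity of all complete Boolean algebras is equivalent to the
Axiom of Choice. -/
theorem Pool.Agent.Results.MP_238801_lc.SikorskiIffChoice.result
    (M : Type u) (E : M → M → Prop) (hE : SIK.IsZF E) :
    SIK.Injectivity E ↔ SIK.Choice E :=
  letI : SIK.ZFModel M := ⟨E, hE⟩
  ⟨fun h => SIK.choice_of_injectivity h, fun h => SIK.injectivity_of_choice h⟩
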